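import Pool.Agent.Q168.RX.Lag
import Pool.Agent.TH839.UH.Fin

/-!
# Derivatives of the heat flow of the completed L-functions of newforms of arbitrary weight
-/

set_option autoImplicit false

namespace Pool.Agent.Q168.RX

open UpperHalfPlane hiding I
open MatrixGroups CongruenceSubgroup Filter Topology Complex MeasureTheory
open Pool.Agent.Y671.GL Pool.Agent.Y771.NF
open scoped ComplexConjugate
open Pool.Agent.W355.UN (UL cond)

variable {N : ℕ} [NeZero N] {k : ℕ} {f : CuspForm (Gamma0 N : Subgroup (GL (Fin 2) ℝ)) (k : ℤ)} {ε : ℝ}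

/-- `ℓ(x) = 1 + log (1 + |x|)` -/
noncomputable def el (x : ℝ) : ℝ := 1 + Real.log (1 + |x|)

lemma one_le_el (x : ℝ) : 1 ≤ el x := by
  unfold el
  have : 0 ≤ Real.log (1 + |x|) := Real.log_nonneg (by linarith [abs_nonneg x])
  linarith

/-- comparison with the analytic conductor, lower bound -/
lemma cond_ge (y : ℝ) : 2 * Real.log (1 + |y|) ≤ Real.log (cond (N : ℝ) (muk k) y) := by
  have hN : (1 : ℝ) ≤ N := by exact_mod_cast Nat.one_le_iff_ne_zero.2 (NeZero.ne N)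
  have hy := abs_nonneg y
  have e : 2 * Real.log (1 + |y|) = Real.log ((1 + |y|) * (1 + |y|)) := by
    rw [Real.log_mul (by positivity) (by positivity)]
    ring
  rw [e]
  apply Real.log_le_log (by positivity)
  unfold Pool.Agent.W355.UN.cond
  rw [Fin.prod_univ_two]
  have hb : ∀ j : Fin 2, 1 + |y| ≤ 1 + ‖(y : ℂ) * I - muk k j‖ := by
    intro j
    have h1 : |((y : ℂ) * I - muk k j).im| ≤ ‖(y : ℂ) * I - muk k j‖ := Complex.abs_im_le_norm _
    have h2 : ((y : ℂ) * I - muk k j).im = y := by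
      fin_cases j
      · show ((y : ℂ) * I - -(((k : ℂ) - 1) / 2)).im = y
        rw [show ((k : ℂ) - 1) / 2 = ((((k : ℝ) - 1) / 2 : ℝ) : ℂ) by push_cast; ring]
        simp
      · show ((y : ℂ) * I - -(((k : ℂ) + 1) / 2)).im = y
        rw [show ((k : ℂ) + 1) / 2 = ((((k : ℝ) + 1) / 2 : ℝ) : ℂ) by push_cast; ring]
        simp
    rw [h2] at h1
    linarith
  have h0 := hb 0
  have h1 := hb 1
  have h2 : (1 + |y|) * (1 + |y|) ≤ (1 + ‖(y : ℂ) * I - muk k 0‖) * (1 + ‖(y : ℂ) * I - muk k 1‖) :=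
    mul_le_mul h0 h1 (by positivity) (by positivity)
  have h3 : 0 ≤ (1 + ‖(y : ℂ) * I - muk k 0‖) * (1 + ‖(y : ℂ) * I - muk k 1‖) := by positivity
  nlinarith

/-- derivatives after the rotation -/
theorem iter_rot {F G : ℂ → ℂ} {c : ℂ} (hF : Differentiable ℂ F)
    (hG : ∀ z, G z = c * F (1 / 2 + I * z)) (n : ℕ) (z : ℂ) :
    iteratedDeriv n G z = c * (I ^ n * iteratedDeriv n F (1 / 2 + I * z)) := by
  have hh : Differentiable ℂ (fun w : ℂ => F (1 / 2 + w)) := hF.comp (by fun_prop)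
  have e : G = fun z => c * (fun z => (fun w : ℂ => F (1 / 2 + w)) (I * z)) z := funext hG
  have hc : ContDiffAt ℂ n (fun z => (fun w : ℂ => F (1 / 2 + w)) (I * z)) z :=
    (hh.comp (by fun_prop : Differentiable ℂ fun z : ℂ => I * z)).contDiff.contDiffAt
  rw [e, iteratedDeriv_const_mul c hc, iteratedDeriv_comp_const_mul hh.contDiff I]
  simp only
  rw [iteratedDeriv_comp_const_add]

/-- **Derivatives of the heat flow for newforms.** -/
theorem heatn (hk : 1 ≤ k) (hf : W388.IsNewf N k f ε) (G : ℝ → ℂ → ℂ)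
    (hG : ∀ (τ : ℝ) (z : ℂ), G τ z = Pool.Agent.W169.HF.heat τ (Lam f) ((k : ℂ) / 2 + I * z)) :
    (∃ C : ℝ, 0 < C ∧
      (∀ (n : ℕ) (t : ℝ) (z : ℂ), 0 ≤ t → C * el z.re ≤ n + t * el z.re ^ 2 →
        iteratedDeriv n (G t) z = 0 → z.im = 0 ∧ iteratedDeriv (n + 1) (G t) z ≠ 0) ∧
      (∀ (n : ℕ) (t : ℝ), 0 ≤ t → C ≤ n * t → ∀ z : ℂ,
        iteratedDeriv n (G t) z = 0 → z.im = 0 ∧ iteratedDeriv (n + 1) (G t) z ≠ 0) ∧
      ((∀ z : ℂ, G 0 z = 0 → z.im = 0) ↔ ∀ (n : ℕ) (t : ℝ) (z : ℂ), 0 < t →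
        n + t * el z.re ^ 2 < C * el z.re → iteratedDeriv n (G t) z = 0 → z.im = 0)) ∧
    (∀ η : ℝ, 0 < η → ∃ x₀ : ℝ, 1 ≤ x₀ ∧ ∀ (t : ℝ) (z : ℂ), 0 < t → x₀ ≤ |z.re| →
      1 + η ≤ 2 * t * Real.log |z.re| → G t z = 0 → z.im = 0) := by
  obtain ⟨u, hu, hue⟩ := exists_unit hf
  obtain ⟨Z, hFE, hL⟩ := exists_Z hk hf
  obtain ⟨B, r, hUL⟩ := ul_of hk hf hu hue hFE hL
  obtain ⟨X, hXd⟩ : ∃ X : ℂ → ℂ, X = fun s => Xf f u (s - 1 / 2) := ⟨_, rfl⟩
  rw [← hXd] at hUL
  have hI := Complex.I_mul_I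
  have hGX : ∀ (t : ℝ) (z : ℂ), G t z = u⁻¹ * Pool.Agent.W169.HF.heat t X (1 / 2 + I * z) := by
    intro t z
    rw [hXd, heat_shift, add_sub_cancel_left, heat_Xf, hG, inv_mul_cancel_left₀ hu]
  have hdiff : ∀ t : ℝ, 0 ≤ t → Differentiable ℂ (Pool.Agent.W169.HF.heat t X) := fun t ht =>
    (Pool.Agent.W169.HF.db_all _ _ hUL.cl hUL.nontriv t ht).2.slow.1
  have hit : ∀ (t : ℝ), 0 ≤ t → ∀ (n : ℕ) (z : ℂ), iteratedDeriv n (G t) z =
      u⁻¹ * (I ^ n * iteratedDeriv n (Pool.Agent.W169.HF.heat t X) (1 / 2 + I * z)) :=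
    fun t ht n z => iter_rot (hdiff t ht) (hGX t) n z
  have hz : ∀ (t : ℝ), 0 ≤ t → ∀ (n : ℕ) (z : ℂ), iteratedDeriv n (G t) z = 0 →
      iteratedDeriv n (Pool.Agent.W169.HF.heat t X) (1 / 2 + I * z) = 0 := by
    intro t ht n z h
    rw [hit t ht] at h
    exact (mul_eq_zero.1 ((mul_eq_zero.1 h).resolve_left (inv_ne_zero hu))).resolve_left
      (pow_ne_zero _ Complex.I_ne_zero)
  have hz' : ∀ (t : ℝ), 0 ≤ t → ∀ (n : ℕ) (z : ℂ),
      iteratedDeriv n (Pool.Agent.W169.HF.heat t X) (1 / 2 + I * z) ≠ 0 → iteratedDeriv n (G t) z ≠ 0 := by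
    intro t ht n z h
    rw [hit t ht]
    exact mul_ne_zero (inv_ne_zero hu) (mul_ne_zero (pow_ne_zero _ Complex.I_ne_zero) h)
  have him : ∀ z : ℂ, (1 / 2 + I * z).im = z.re := fun z => by simp
  have hre : ∀ z : ℂ, (1 / 2 + I * z).re = 1 / 2 - z.im := fun z => by
    simp [Complex.mul_re]
    ring
  obtain ⟨D, hD⟩ : ∃ D : ℝ, D = Real.log N + 2 * Real.log (2 + k) := ⟨_, rfl⟩
  have hN1 : (1 : ℝ) ≤ N := by exact_mod_cast Nat.one_le_iff_ne_zero.2 (NeZero.ne N)
  have hD0 : 0 ≤ D := by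
    rw [hD]
    have h1 := Real.log_nonneg hN1
    have h2 : 0 ≤ Real.log (2 + k) := Real.log_nonneg (by
      have : (0 : ℝ) ≤ k := Nat.cast_nonneg k
      linarith)
    linarith
  have hup : ∀ y : ℝ, ((2 : ℕ) : ℝ) + Real.log (cond (N : ℝ) (muk k) y) ≤ (2 + D) * el y := by
    intro y
    have h1 := cond_le (N := N) hk y
    have h2 : 0 ≤ Real.log (1 + |y|) := Real.log_nonneg (by linarith [abs_nonneg y])
    unfold el
    push_cast
    nlinarith
  have hlo : ∀ y : ℝ, 2 * el y ≤ ((2 : ℕ) : ℝ) + Real.log (cond (N : ℝ) (muk k) y) := by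
    intro y
    have h1 := cond_ge (N := N) (k := k) y
    unfold el
    push_cast
    linarith
  refine ⟨?_, ?_⟩
  · obtain ⟨C0, hC0, H⟩ := Pool.Agent.TH839.UH.main_all (hUL.hB 1)
    obtain ⟨C1, hC1⟩ : ∃ C1 : ℝ, C1 = (2 + D) * C0 := ⟨_, rfl⟩
    have hC1p : 0 < C1 := by rw [hC1]; positivity
    have key : ∀ (n : ℕ) (t : ℝ) (z : ℂ), 0 ≤ t → C1 * el z.re ≤ n + t * el z.re ^ 2 →
        iteratedDeriv n (G t) z = 0 → z.im = 0 ∧ iteratedDeriv (n + 1) (G t) z ≠ 0 := by
      intro n t z ht hl hs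
      have l1 := hup z.re
      have l2 := hlo z.re
      have l3 := one_le_el z.re
      obtain ⟨r1, r2⟩ := H 2 (N : ℝ) 0 (muk k) _ _ hUL zero_le_one t n (1 / 2 + I * z) ht (by
        rw [him]
        have h1 : el z.re ^ 2 ≤ (((2 : ℕ) : ℝ) + Real.log (cond (N : ℝ) (muk k) z.re)) ^ 2 := by
          apply pow_le_pow_left₀ (by linarith)
          linarith
        have h2 : t * el z.re ^ 2 ≤ t * (((2 : ℕ) : ℝ) + Real.log (cond (N : ℝ) (muk k) z.re)) ^ 2 :=
          mul_le_mul_of_nonneg_left h1 ht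
        have h3 : C0 * (((2 : ℕ) : ℝ) + Real.log (cond (N : ℝ) (muk k) z.re)) ≤ C0 * ((2 + D) * el z.re) :=
          mul_le_mul_of_nonneg_left l1 hC0.le
        have h4 : C0 * ((2 + D) * el z.re) = C1 * el z.re := by rw [hC1]; ring
        linarith) (hz t ht n z hs)
      rw [hre] at r1
      exact ⟨by linarith, hz' t ht _ _ r2⟩
    obtain ⟨C, hCd⟩ : ∃ C : ℝ, C = C1 + C1 ^ 2 := ⟨_, rfl⟩
    have hC1C : C1 ≤ C := by rw [hCd]; nlinarith
    refine ⟨C, by linarith, ?_, ?_, ?_⟩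
    · intro n t z ht hl hs
      refine key n t z ht (le_trans ?_ hl) hs
      exact mul_le_mul_of_nonneg_right hC1C (by linarith [one_le_el z.re])
    · intro n t ht hnt z hs
      refine key n t z ht ?_ hs
      have l1 := one_le_el z.re
      obtain ⟨l, hl⟩ : ∃ l : ℝ, l = el z.re := ⟨_, rfl⟩
      rw [← hl] at l1 ⊢
      have h1 : C1 ^ 2 ≤ n * t := by
        rw [hCd] at hnt
        linarith
      have h2 : (0 : ℝ) ≤ n := Nat.cast_nonneg n
      have h3 : 0 ≤ t * l ^ 2 := by positivity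
      have h4 : (C1 * l) ^ 2 ≤ (n + t * l ^ 2) ^ 2 := by
        have e1 : (C1 * l) ^ 2 = C1 ^ 2 * l ^ 2 := by ring
        have e2 : (n + t * l ^ 2) ^ 2 = (n - t * l ^ 2) ^ 2 + 4 * (n * t) * l ^ 2 := by ring
        rw [e1, e2]
        have h5 : C1 ^ 2 * l ^ 2 ≤ (n * t) * l ^ 2 := mul_le_mul_of_nonneg_right h1 (by positivity)
        nlinarith [sq_nonneg (n - t * l ^ 2), mul_nonneg (mul_nonneg h2 ht) (sq_nonneg l)]
      exact (sq_le_sq₀ (by positivity) (by positivity)).1 h4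
    · have h00 : ∀ z, G 0 z = u⁻¹ * X (1 / 2 + I * z) := by
        intro z
        rw [hGX, Pool.Agent.W169.HF.heat_zero_time X hUL.slow]
      have hRX : (∀ z : ℂ, G 0 z = 0 → z.im = 0) ↔ ∀ s : ℂ, X s = 0 → s.re = 1 / 2 := by
        constructor
        · intro h s hs
          have e : 1 / 2 + I * (-I * (s - 1 / 2)) = s := by linear_combination (-(s - 1 / 2)) * hI
          have h1 := h (-I * (s - 1 / 2)) (by rw [h00, e, hs, mul_zero])
          have h2 : (-I * (s - 1 / 2)).im = -(s.re - 1 / 2) := by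
            simp [Complex.mul_im]
          rw [h2] at h1
          linarith
        · intro h z hz0
          rw [h00] at hz0
          have h1 := h _ ((mul_eq_zero.1 hz0).resolve_left (inv_ne_zero hu))
          rw [hre] at h1
          linarith
      rw [hRX]
      constructor
      · intro hR n t z ht _ hs
        have h1 := Pool.Agent.TH839.UH.rh_down Pool.Agent.TH194.UH.comm hUL zero_le_one hR ht.le n
          (hz t ht.le n z hs)
        rw [hre] at h1
        linarith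
      · intro hsm
        refine (Pool.Agent.W355.UN.rh_iff hUL (T := 1) one_pos).2 ?_
        intro t ht _ s hs
        have e : 1 / 2 + I * (-I * (s - 1 / 2)) = s := by linear_combination (-(s - 1 / 2)) * hI
        have e1 : iteratedDeriv 0 (G t) (-I * (s - 1 / 2)) = 0 := by
          rw [iteratedDeriv_zero, hGX, e, hs, mul_zero]
        have h2 : (-I * (s - 1 / 2)).im = -(s.re - 1 / 2) := by
          simp [Complex.mul_im]
        rcases lt_or_ge (((0 : ℕ) : ℝ) + t * el (-I * (s - 1 / 2)).re ^ 2) (C * el (-I * (s - 1 / 2)).re)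
          with h3 | h3
        · have h4 := hsm 0 t _ ht h3 e1
          rw [h2] at h4
          linarith
        · have h4 := (key 0 t (-I * (s - 1 / 2)) ht.le (by
            have : C1 * el (-I * (s - 1 / 2)).re ≤ C * el (-I * (s - 1 / 2)).re :=
              mul_le_mul_of_nonneg_right hC1C (by linarith [one_le_el (-I * (s - 1 / 2)).re])
            linarith) e1).1
          rw [h2] at h4
          linarith
  · intro η hη
    obtain ⟨C, hC, H⟩ := Pool.Agent.W355.UN.sharp (B := B) (θ := 0) (η := min η 1) hUL.hB le_rfl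
      (by norm_num) (by positivity) (min_le_right _ _)
    refine ⟨Real.exp C, Real.one_le_exp hC.le, ?_⟩
    intro t z ht hx h1 hs
    have h2 := cond_ge (N := N) (k := k) z.re
    have hx0 : 0 < |z.re| := lt_of_lt_of_le (Real.exp_pos C) hx
    have h3 : Real.log |z.re| ≤ Real.log (1 + |z.re|) := Real.log_le_log hx0 (by linarith)
    have h4 : C ≤ Real.log |z.re| := (Real.le_log_iff_exp_le hx0).2 hx
    have h5 : min η 1 ≤ η := min_le_left _ _
    rw [hGX] at hs
    have h6 := H 2 (N : ℝ) (muk k) _ _ hUL t (1 / 2 + I * z) ht (by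
      rw [him]
      push_cast
      linarith) (by
      rw [him]
      have : t * (2 * Real.log |z.re|) ≤ t * Real.log (cond (N : ℝ) (muk k) z.re) :=
        mul_le_mul_of_nonneg_left (by linarith) ht.le
      linarith) ((mul_eq_zero.1 hs).resolve_left (inv_ne_zero hu))
    rw [hre] at h6
    linarith

end Pool.Agent.Q168.RX
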