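import Pool.Agent.Y771.NF.FinH
import Pool.Agent.Y771.NF.FinD
import Pool.Agent.TH803.LU.ULp

/-!
# Laguerre inequalities for the completed L-functions of newforms of arbitrary weight

The input is the package `Pool.Agent.Y771.NF.ul_of` (Rankin-Selberg instead of Deligne's theorem) and the
analysis of `Pool.Agent.TH803.LU`.
-/

set_option autoImplicit false

namespace Pool.Agent.Q168.RX

open UpperHalfPlane hiding I
open MatrixGroups CongruenceSubgroup Filter Topology Complex MeasureTheory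
open Pool.Agent.Y671.GL Pool.Agent.Y771.NF
open scoped ComplexConjugate
open Pool.Agent.W355.UN (UL cond)
open Pool.Agent.TH803.LU

variable {N : ℕ} [NeZero N] {k : ℕ} {f : CuspForm (Gamma0 N : Subgroup (GL (Fin 2) ℝ)) (k : ℤ)} {ε : ℝ}

/-- the coefficient of `y^(2n)` in `|G(x + i y)|²` -/
noncomputable def LX (G : ℂ → ℂ) (n : ℕ) (x : ℝ) : ℝ :=
  iteratedDeriv (2 * n) (fun y : ℝ => ‖G (x + y * I)‖ ^ 2) 0 / ((2 * n).factorial : ℝ)

theorem LC_const {f : ℂ → ℂ} (hf : Differentiable ℂ f) (c : ℂ) (n : ℕ) :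
    LC (fun u => c * f u) n = ‖c‖ ^ 2 * LC f n := by
  have e : EE (fun u => c * f u) = fun z => ((‖c‖ ^ 2 : ℝ) : ℂ) * EE f z := by
    funext z
    unfold EE
    rw [map_mul]
    have : c * conj c = ((‖c‖ ^ 2 : ℝ) : ℂ) := by rw [Complex.mul_conj, Complex.normSq_eq_norm_sq]
    rw [← this]
    ring
  have h1 : iteratedDeriv (2 * n) (fun z => ((‖c‖ ^ 2 : ℝ) : ℂ) * EE f z) 0 =
      ((‖c‖ ^ 2 : ℝ) : ℂ) * iteratedDeriv (2 * n) (EE f) 0 := by
    have h2 : ContDiff ℂ (2 * n : ℕ) (EE f) := (EE_diff hf).contDiff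
    exact iteratedDeriv_const_mul _ h2.contDiffAt
  unfold LC
  rw [e, h1, Complex.re_ofReal_mul]
  ring

/-- the connection between the two normalisations -/
theorem LC_LX {G X : ℂ → ℂ} {u : ℂ} (hG : Differentiable ℂ G)
    (hX : ∀ s, X s = u * G (-I * (s - 1 / 2))) (x : ℝ) (n : ℕ) :
    LC (sh X x) n = ‖u‖ ^ 2 * LX G n x := by
  have e : sh X x = fun z => u * G (x - I * z) := by
    funext z
    unfold sh
    rw [hX]
    congr 2
    have hI := Complex.I_mul_I
    linear_combination (-(x : ℂ)) * hI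
  have hd : Differentiable ℂ (fun z : ℂ => G (x - I * z)) := hG.comp (by fun_prop)
  rw [e, LC_const hd, LC_eq hd]
  congr 1
  unfold LX
  congr 1
  have e2 : (fun y : ℝ => ‖G (x - I * y)‖ ^ 2) =
      fun y : ℝ => (fun y : ℝ => ‖G (x + y * I)‖ ^ 2) (-y) := by
    funext y
    simp only
    congr 3
    push_cast
    ring
  have h := iteratedDeriv_comp_neg (2 * n) (fun y : ℝ => ‖G (x + y * I)‖ ^ 2) (0 : ℝ)
  rw [e2]
  refine h.trans ?_
  rw [neg_zero, pow_mul, neg_one_sq, one_pow, one_smul]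

/-- zeros -/
theorem zer_iff {G X : ℂ → ℂ} {u : ℂ} (hu : u ≠ 0)
    (hX : ∀ s, X s = u * G (-I * (s - 1 / 2))) :
    (∀ s : ℂ, X s = 0 → s.re = 1 / 2) ↔ ∀ z : ℂ, G z = 0 → z.im = 0 := by
  have hI := Complex.I_mul_I
  constructor
  · intro h z hz
    have h1 := h (1 / 2 + I * z) (by
      rw [hX]
      have : -I * (1 / 2 + I * z - 1 / 2) = z := by linear_combination (-z) * hI
      rw [this, hz, mul_zero])
    have h2 : (1 / 2 + I * z).re = 1 / 2 - z.im := by
      simp [Complex.mul_re]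
      ring
    rw [h2] at h1
    linarith
  · intro h s hs
    rw [hX] at hs
    have h1 := h _ ((mul_eq_zero.1 hs).resolve_left hu)
    have h2 : (-I * (s - 1 / 2)).im = -(s.re - 1 / 2) := by
      simp [Complex.mul_im]
    rw [h2] at h1
    linarith

theorem zer_le {G X : ℂ → ℂ} {u : ℂ} {ϑ : ℝ} (hu : u ≠ 0)
    (hX : ∀ s, X s = u * G (-I * (s - 1 / 2))) (h : ∀ z : ℂ, G z = 0 → |z.im| ≤ ϑ) :
    ∀ s : ℂ, X s = 0 → s.re ≤ 1 / 2 + ϑ := by
  intro s hs
  rw [hX] at hs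
  have h1 := h _ ((mul_eq_zero.1 hs).resolve_left hu)
  have h2 : (-I * (s - 1 / 2)).im = -(s.re - 1 / 2) := by
    simp [Complex.mul_im]
  rw [h2, abs_neg] at h1
  linarith [le_abs_self (s.re - 1 / 2)]

/-- the power series -/
theorem sum_LX {G X : ℂ → ℂ} {u : ℂ} (hu : u ≠ 0) (hG : Differentiable ℂ G)
    (hX : ∀ s, X s = u * G (-I * (s - 1 / 2)))
    (hfe : ∃ ε : ℂ, ‖ε‖ = 1 ∧ ∀ s : ℂ, X s = ε * conj (X (1 - conj s))) (x y : ℝ) :
    HasSum (fun n : ℕ => LX G n x * y ^ (2 * n)) (‖G (x + y * I)‖ ^ 2) := by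
  have hdX : Differentiable ℂ X := by
    have : X = fun s => u * G (-I * (s - 1 / 2)) := funext hX
    rw [this]
    exact (differentiable_const _).mul (hG.comp (by fun_prop))
  have hd : Differentiable ℂ (sh X x) :=
    hdX.comp (by fun_prop : Differentiable ℂ fun u : ℂ => 1 / 2 + x * Complex.I + u)
  have h := hasSum_LC hd (sh_fe hfe x) (-y)
  have hu2 : (0 : ℝ) < ‖u‖ ^ 2 := by positivity
  have h2 := h.mul_left ((‖u‖ ^ 2)⁻¹)
  have e1 : (‖u‖ ^ 2)⁻¹ * ‖sh X x ((-y : ℝ) : ℂ)‖ ^ 2 = ‖G (x + y * I)‖ ^ 2 := by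
    have : sh X x ((-y : ℝ) : ℂ) = u * G (x + y * I) := by
      unfold sh
      rw [hX]
      congr 2
      have hI := Complex.I_mul_I
      push_cast
      linear_combination (-(x : ℂ)) * hI
    rw [this, norm_mul, mul_pow, ← mul_assoc, inv_mul_cancel₀ hu2.ne', one_mul]
  rw [e1] at h2
  refine h2.congr_fun fun n => ?_
  rw [LC_LX hG hX]
  have e3 : (-y) ^ (2 * n) = y ^ (2 * n) := by
    rw [pow_mul, pow_mul, neg_sq]
  rw [e3]
  field_simp

/-- **Laguerre inequalities for newforms.** -/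
theorem lag (hk : 1 ≤ k) (hf : W388.IsNewf N k f ε) (G : ℂ → ℂ)
    (hG : ∀ z, G z = Lam f ((k : ℂ) / 2 + I * z)) :
    (∀ x y : ℝ, HasSum (fun n : ℕ => LX G n x * y ^ (2 * n)) (‖G (x + y * I)‖ ^ 2)) ∧
    (∀ η : ℝ, 0 < η → ∃ C : ℝ, 0 < C ∧
      (∀ (n : ℕ) (x : ℝ), (1 / 2 + η) * Real.log (1 + |x|) + C ≤ n → 0 < LX G n x) ∧
      ((∀ z : ℂ, G z = 0 → z.im = 0) ↔
        ∀ (n : ℕ) (x : ℝ), (n : ℝ) < (1 / 2 + η) * Real.log (1 + |x|) + C → 0 ≤ LX G n x)) ∧
    (∀ η ϑ : ℝ, 0 < η → 0 ≤ ϑ → ϑ ≤ 1 / 2 → (∀ z : ℂ, G z = 0 → |z.im| ≤ ϑ) →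
      ∃ C : ℝ, ∀ (n : ℕ) (x : ℝ), (ϑ + η) * Real.log (1 + |x|) + C ≤ n → 0 < LX G n x) := by
  obtain ⟨u, hu, hue⟩ := exists_unit hf
  obtain ⟨Z, hFE, hL⟩ := exists_Z hk hf
  obtain ⟨B, r, hUL⟩ := ul_of hk hf hu hue hFE hL
  have hX : ∀ s, (fun s => Xf f u (s - 1 / 2)) s = u * G (-I * (s - 1 / 2)) := by
    intro s
    show Xf f u (s - 1 / 2) = _
    rw [hG, Xf]
    congr 2
    have hI := Complex.I_mul_I
    linear_combination (s - 1 / 2) * hI
  have hGd : Differentiable ℂ G := by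
    have : G = fun z => Lam f ((k : ℂ) / 2 + I * z) := funext hG
    rw [this]
    exact (Lam_diff hk hf).comp (by fun_prop)
  have hLC : ∀ (x : ℝ) (n : ℕ), LC (sh (fun s => Xf f u (s - 1 / 2)) x) n = ‖u‖ ^ 2 * LX G n x :=
    fun x n => LC_LX hGd hX x n
  have hu2 : (0 : ℝ) < ‖u‖ ^ 2 := by positivity
  have hpos : ∀ (x : ℝ) (n : ℕ), 0 < LC (sh (fun s => Xf f u (s - 1 / 2)) x) n → 0 < LX G n x := by
    intro x n h
    rw [hLC] at h
    exact (pos_iff_pos_of_mul_pos h).1 hu2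
  have hB := hUL.hB
  have hcl := fun x : ℝ => cond_le (N := N) hk x
  obtain ⟨D, hD⟩ : ∃ D : ℝ, D = Real.log N + 2 * Real.log (2 + k) := ⟨_, rfl⟩
  have hN1 : (1 : ℝ) ≤ N := by exact_mod_cast Nat.one_le_iff_ne_zero.2 (NeZero.ne N)
  have hD0 : 0 ≤ D := by
    rw [hD]
    have h1 := Real.log_nonneg hN1
    have h2 : 0 ≤ Real.log (2 + k) := Real.log_nonneg (by
      have : (0 : ℝ) ≤ k := Nat.cast_nonneg k
      linarith)
    linarith
  have hl0 : ∀ x : ℝ, 0 ≤ Real.log (1 + |x|) := fun x => Real.log_nonneg (by linarith [abs_nonneg x])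
  have hc0 : ∀ x : ℝ, Real.log (cond (N : ℝ) (muk k) x) ≤ D + 2 * Real.log (1 + |x|) := by
    intro x
    have := hcl x
    rw [hD]
    linarith
  obtain ⟨C, hC, HC⟩ := abs_pos (hB 1)
  refine ⟨fun x y => sum_LX hu hGd hX hUL.fe x y, ?_, ?_⟩
  · intro η hη
    obtain ⟨K, hK, HK⟩ := sharp_pos (B := B) (θ := 0) (η := min (η / 2) 1) hB le_rfl (by norm_num)
      (by positivity) (min_le_right _ _)
    obtain ⟨C0, hC0⟩ : ∃ C0 : ℝ, C0 = C * (2 + 2 * K) + (1 / 4 + η / 2) * D := ⟨_, rfl⟩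
    have key : ∀ (n : ℕ) (x : ℝ), (1 / 2 + η) * Real.log (1 + |x|) + C0 ≤ n → 0 < LX G n x := by
      intro n x hn
      apply hpos
      have h1 := hl0 x
      have h2 := hc0 x
      have h3 : 0 ≤ (1 / 2 + η) * Real.log (1 + |x|) := by positivity
      have h4 : 0 ≤ (1 / 4 + η / 2) * D := by positivity
      have h5 : 0 ≤ C * (2 + 2 * K) := by positivity
      by_cases hc : K * 2 ≤ Real.log (cond (N : ℝ) (muk k) x)
      · refine HK 2 N _ _ _ hUL x n (by exact_mod_cast hc) ?_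
        have h6 : min (η / 2) 1 ≤ η / 2 := min_le_left _ _
        have h7 : 0 ≤ Real.log (cond (N : ℝ) (muk k) x) := le_trans (by positivity) hc
        calc ((1 + 2 * 0) / 4 + min (η / 2) 1) * Real.log (cond (N : ℝ) (muk k) x)
            ≤ (1 / 4 + η / 2) * Real.log (cond (N : ℝ) (muk k) x) := by
              apply mul_le_mul_of_nonneg_right _ h7
              linarith
          _ ≤ (1 / 4 + η / 2) * (D + 2 * Real.log (1 + |x|)) :=
              mul_le_mul_of_nonneg_left h2 (by positivity)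
          _ ≤ n := by linarith
      · push Not at hc
        refine HC 2 N 0 _ _ _ hUL (by norm_num) x n ?_
        have h6 : C * (((2 : ℕ) : ℝ) + Real.log (cond (N : ℝ) (muk k) x)) ≤ C * (2 + 2 * K) := by
          apply mul_le_mul_of_nonneg_left _ hC.le
          push_cast
          linarith
        linarith
    refine ⟨C0, by rw [hC0]; positivity, key, ?_⟩
    rw [← zer_iff hu hX, rh_iff_lag hUL]
    constructor
    · intro h n x _
      have := h n x
      rw [hLC] at this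
      exact nonneg_of_mul_nonneg_right this hu2
    · intro h n x
      rw [hLC]
      rcases lt_or_ge (n : ℝ) ((1 / 2 + η) * Real.log (1 + |x|) + C0) with h1 | h1
      · exact mul_nonneg hu2.le (h n x h1)
      · exact mul_nonneg hu2.le (key n x h1).le
  · intro η ϑ hη hϑ0 hϑ1 hz
    obtain ⟨K, hK, HK⟩ := zf_pos (B := B) (η := min (η / 2) 1) hB hϑ0 hϑ1
      (by positivity) (min_le_right _ _) 2
    obtain ⟨C0, hC0⟩ : ∃ C0 : ℝ, C0 = C * (2 + K) + (ϑ / 2 + η / 2) * D := ⟨_, rfl⟩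
    refine ⟨C0, ?_⟩
    intro n x hn
    apply hpos
    have h1 := hl0 x
    have h2 := hc0 x
    have h3 : 0 ≤ (ϑ + η) * Real.log (1 + |x|) := by positivity
    have h4 : 0 ≤ (ϑ / 2 + η / 2) * D := by positivity
    have h5 : 0 ≤ C * (2 + K) := by positivity
    by_cases hc : K ≤ Real.log (cond (N : ℝ) (muk k) x)
    · refine HK N _ _ _ hUL (zer_le hu hX hz) x n hc ?_
      have h6 : min (η / 2) 1 ≤ η / 2 := min_le_left _ _
      have h7 : 0 ≤ Real.log (cond (N : ℝ) (muk k) x) := le_trans hK.le hc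
      calc (ϑ / 2 + min (η / 2) 1) * Real.log (cond (N : ℝ) (muk k) x)
          ≤ (ϑ / 2 + η / 2) * Real.log (cond (N : ℝ) (muk k) x) := by
            apply mul_le_mul_of_nonneg_right _ h7
            linarith
        _ ≤ (ϑ / 2 + η / 2) * (D + 2 * Real.log (1 + |x|)) :=
            mul_le_mul_of_nonneg_left h2 (by positivity)
        _ ≤ n := by linarith
    · push Not at hc
      refine HC 2 N 0 _ _ _ hUL (by norm_num) x n ?_
      have h6 : C * (((2 : ℕ) : ℝ) + Real.log (cond (N : ℝ) (muk k) x)) ≤ C * (2 + K) := by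
        apply mul_le_mul_of_nonneg_left _ hC.le
        push_cast
        linarith
      linarith

end Pool.Agent.Q168.RX
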